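import Mathlib

/-!
# Coefficients of polynomials bounded on `[-1,1]`

If `p` has degree at most `d` and `|p| ≤ B` on `[-1,1]`, then `|p.coeff k| ≤ B (e d / k)^k`.
-/

set_option autoImplicit false

namespace Pool.Agent.TH788.TW

open Polynomial

lemma exists_joukowski (z : ℂ) : ∃ w : ℂ, 1 ≤ ‖w‖ ∧ w + w⁻¹ = 2 * z := by
  obtain ⟨s, hs⟩ := IsAlgClosed.exists_pow_nat_eq (z ^ 2 - 1) (n := 2) (by norm_num)
  have h1 : (z + s) * (z - s) = 1 := by
    have : (z + s) * (z - s) = z ^ 2 - s ^ 2 := by ring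
    rw [this, hs]; ring
  have h2 : (z + s) ≠ 0 := by
    intro h; rw [h, zero_mul] at h1; exact zero_ne_one h1
  have h3 : (z - s) ≠ 0 := by
    intro h; rw [h, mul_zero] at h1; exact zero_ne_one h1
  by_cases h : 1 ≤ ‖z + s‖
  · refine ⟨z + s, h, ?_⟩
    have h4 : (z + s)⁻¹ = z - s := inv_eq_of_mul_eq_one_right h1
    rw [h4]; ring
  · refine ⟨z - s, ?_, ?_⟩
    · have h5 : ‖z + s‖ * ‖z - s‖ = 1 := by rw [← norm_mul, h1, norm_one]
      push Not at h
      nlinarith [norm_nonneg (z - s), norm_nonneg (z + s)]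
    · have h4 : (z - s)⁻¹ = z + s := inv_eq_of_mul_eq_one_left h1
      rw [h4]; ring

lemma norm_joukowski_le {z w : ℂ} (h1 : 1 ≤ ‖w‖) (h2 : w + w⁻¹ = 2 * z) : ‖w‖ ≤ Real.exp ‖z‖ := by
  have hw0 : 0 < ‖w‖ := lt_of_lt_of_le one_pos h1
  by_contra hcon
  push Not at hcon
  set L := Real.log ‖w‖ with hL
  have hLw : Real.exp L = ‖w‖ := Real.exp_log hw0
  have h3 : ‖z‖ < L := by
    rw [hL, Real.lt_log_iff_exp_lt hw0]; exact hcon
  have h4 : 0 ≤ L := Real.log_nonneg h1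
  have h5 : L ≤ Real.sinh L := Real.self_le_sinh_iff.2 h4
  have h6 : Real.sinh L = (‖w‖ - ‖w‖⁻¹) / 2 := by
    rw [Real.sinh_eq, Real.exp_neg, hLw]
  have h7 : ‖w‖ - ‖w⁻¹‖ ≤ ‖w + w⁻¹‖ := by
    have := norm_sub_norm_le w (-w⁻¹)
    rwa [norm_neg, sub_neg_eq_add] at this
  rw [h2, norm_mul, norm_inv] at h7
  have h8 : ‖(2 : ℂ)‖ = 2 := by simp
  rw [h8] at h7
  linarith

/-- Growth of a bounded polynomial in the complex plane. -/
lemma norm_eval_le {d : ℕ} {p : ℝ[X]} {B : ℝ} (hp : p.natDegree ≤ d)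
    (hb : ∀ t ∈ Set.Icc (-1 : ℝ) 1, |p.eval t| ≤ B) (z : ℂ) :
    ‖(p.map (algebraMap ℝ ℂ)).eval z‖ ≤ B * Real.exp (d * ‖z‖) := by
  have hB0 : 0 ≤ B := (abs_nonneg _).trans (hb 1 (by norm_num))
  set P := p.map (algebraMap ℝ ℂ) with hP
  have hPd : P.natDegree < d + 1 := lt_of_le_of_lt natDegree_map_le (Nat.lt_succ_of_le hp)
  have hev : ∀ y : ℂ, P.eval y = ∑ n ∈ Finset.range (d + 1), (p.coeff n : ℂ) * y ^ n := by
    intro y
    rw [eval_eq_sum_range' hPd]
    refine Finset.sum_congr rfl fun n _ => ?_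
    rw [hP, coeff_map]; rfl
  let Q : ℂ → ℂ := fun u => ∑ n ∈ Finset.range (d + 1), (p.coeff n : ℂ) * ((u ^ 2 + 1) / 2) ^ n
    * u ^ (d - n)
  have hQd : Differentiable ℂ Q := by
    intro u
    simp only [Q]
    fun_prop
  have hkey : ∀ u y : ℂ, (u ^ 2 + 1) / 2 = u * y → Q u = u ^ d * P.eval y := by
    intro u y h
    rw [hev]
    simp only [Q]
    rw [Finset.mul_sum]
    refine Finset.sum_congr rfl fun n hn => ?_
    rw [h, mul_pow]
    have hn' : n ≤ d := Nat.lt_succ_iff.1 (Finset.mem_range.1 hn)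
    have : u ^ d = u ^ n * u ^ (d - n) := by rw [← pow_add, Nat.add_sub_cancel' hn']
    rw [this]; ring
  have hQ1 : ∀ u ∈ frontier (Metric.ball (0 : ℂ) 1), ‖Q u‖ ≤ B := by
    intro u hu
    rw [frontier_ball (0 : ℂ) one_ne_zero, mem_sphere_zero_iff_norm] at hu
    have hu2 : u * (starRingEnd ℂ) u = 1 := by
      rw [Complex.mul_conj, Complex.normSq_eq_norm_sq, hu]; norm_num
    have h1 : (u ^ 2 + 1) / 2 = u * ((u.re : ℝ) : ℂ) := by
      rw [Complex.re_eq_add_conj, ← hu2]; ring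
    rw [hkey u _ h1, norm_mul, norm_pow, hu, one_pow, one_mul]
    have h2 : P.eval ((u.re : ℝ) : ℂ) = ((p.eval u.re : ℝ) : ℂ) := by
      rw [hP, eval_map, ← Polynomial.aeval_def]
      exact (Polynomial.aeval_algebraMap_apply ℂ u.re p).trans (by simp)
    rw [h2, Complex.norm_real, Real.norm_eq_abs]
    apply hb
    have h3 : |u.re| ≤ 1 := hu ▸ Complex.abs_re_le_norm u
    exact abs_le.1 h3
  obtain ⟨w, hw1, hw2⟩ := exists_joukowski z
  have hw0 : w ≠ 0 := by
    intro h; rw [h, norm_zero] at hw1; linarith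
  have hwn : 0 < ‖w‖ := norm_pos_iff.2 hw0
  have h3 : ‖Q w⁻¹‖ ≤ B := by
    apply Complex.norm_le_of_forall_mem_frontier_norm_le (U := Metric.ball (0 : ℂ) 1)
      Metric.isBounded_ball hQd.diffContOnCl hQ1
    rw [closure_ball (0 : ℂ) one_ne_zero, mem_closedBall_zero_iff, norm_inv]
    exact inv_le_one_of_one_le₀ hw1
  have h4 : ((w⁻¹) ^ 2 + 1) / 2 = w⁻¹ * z := by
    have : z = (w + w⁻¹) / 2 := by rw [hw2]; ring
    rw [this]
    field_simp
    ring
  rw [hkey _ _ h4, norm_mul, norm_pow, norm_inv] at h3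
  have h5 : ‖P.eval z‖ ≤ B * ‖w‖ ^ d := by
    have : ‖P.eval z‖ = ‖w‖ ^ d * (‖w‖⁻¹ ^ d * ‖P.eval z‖) := by
      rw [← mul_assoc, ← mul_pow, mul_inv_cancel₀ hwn.ne', one_pow, one_mul]
    rw [this, mul_comm B]
    exact mul_le_mul_of_nonneg_left h3 (by positivity)
  refine h5.trans (mul_le_mul_of_nonneg_left ?_ hB0)
  rw [Real.exp_nat_mul]
  exact pow_le_pow_left₀ hwn.le (norm_joukowski_le hw1 hw2) d

lemma iteratedDeriv_eval (P : ℂ[X]) (k : ℕ) :
    iteratedDeriv k (fun z => P.eval z) 0 = (k.factorial : ℂ) * P.coeff k := by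
  have h : ∀ (k : ℕ) (P : ℂ[X]), deriv^[k] (fun z => P.eval z) = fun z => (derivative^[k] P).eval z := by
    intro k
    induction k with
    | zero => intro P; rfl
    | succ k ih =>
      intro P
      rw [Function.iterate_succ_apply, Function.iterate_succ_apply]
      have : deriv (fun z => P.eval z) = fun z => (derivative P).eval z := by
        funext z; exact P.deriv
      rw [this, ih]
  rw [iteratedDeriv_eq_iterate, h]
  simp only
  rw [← coeff_zero_eq_eval_zero, coeff_iterate_derivative, zero_add, Nat.descFactorial_self,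
    nsmul_eq_mul]

/-- The coefficient bound. -/
theorem coeff_le {d : ℕ} {p : ℝ[X]} {B : ℝ} (hp : p.natDegree ≤ d)
    (hb : ∀ t ∈ Set.Icc (-1 : ℝ) 1, |p.eval t| ≤ B) (k : ℕ) (hk : 1 ≤ k) :
    |p.coeff k| ≤ (Real.exp 1 * d / k) ^ k * B := by
  have hB0 : 0 ≤ B := (abs_nonneg _).trans (hb 1 (by norm_num))
  rcases Nat.eq_zero_or_pos d with hd | hd
  · rw [coeff_eq_zero_of_natDegree_lt (by omega), abs_zero]
    positivity
  have hk' : (0 : ℝ) < k := by exact_mod_cast hk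
  have hd' : (0 : ℝ) < d := by exact_mod_cast hd
  set r : ℝ := k / d with hr
  have hr0 : 0 < r := by positivity
  set P := p.map (algebraMap ℝ ℂ) with hP
  have h1 : ‖iteratedDeriv k (fun z => P.eval z) 0‖ ≤
      k.factorial * (B * Real.exp (d * r)) / r ^ k := by
    apply Complex.norm_iteratedDeriv_le_of_forall_mem_sphere_norm_le k hr0
    · exact P.differentiable.diffContOnCl
    · intro z hz
      rw [mem_sphere_zero_iff_norm] at hz
      have := norm_eval_le hp hb z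
      rwa [hz] at this
  rw [iteratedDeriv_eval, norm_mul, Complex.norm_natCast] at h1
  have h2 : ‖P.coeff k‖ = |p.coeff k| := by
    rw [hP, coeff_map]
    exact (Complex.norm_real _).trans (Real.norm_eq_abs _)
  rw [h2] at h1
  have hf : (0 : ℝ) < k.factorial := by exact_mod_cast k.factorial_pos
  have h3 : |p.coeff k| ≤ (B * Real.exp (d * r)) / r ^ k := by
    rw [mul_div_assoc] at h1
    exact le_of_mul_le_mul_left h1 hf
  refine h3.trans (le_of_eq ?_)
  have h4 : (d : ℝ) * r = k := by rw [hr]; field_simp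
  have h5 : Real.exp (k : ℝ) = Real.exp 1 ^ k := by rw [← Real.exp_nat_mul, mul_one]
  rw [h4, hr, h5, div_pow, div_pow, mul_pow]
  field_simp

end Pool.Agent.TH788.TW
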