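import Pool.Agent.H746R2.AA.Hyper

/-!
# Khinchine's inequality for decoupled multilinear forms
-/

set_option autoImplicit false
set_option linter.unusedSectionVars false

namespace Pool.Agent.TH788.TW

open Finset Pool.Agent.H722R2.AA Pool.Agent.H746R2.AA

variable {κ : Type*} [Fintype κ] [DecidableEq κ]

/-- Khinchine's inequality, with the constant `3`. -/
lemma khin_one (a : κ → ℝ) :
    Real.sqrt (∑ b, a b ^ 2) ≤ 3 * Ex (fun x : κ → ℤˣ => |∑ b, a b * sg x b|) := by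
  classical
  let c : Finset κ → ℝ := fun S => if h : ∃ b, S = {b} then a h.choose else 0
  have hc1 : ∀ b, c {b} = a b := by
    intro b
    have h : ∃ b', ({b} : Finset κ) = {b'} := ⟨b, rfl⟩
    simp only [c, dif_pos h]
    have := h.choose_spec
    rw [Finset.singleton_inj] at this
    rw [← this]
  have hc0 : ∀ S : Finset κ, S.card ≠ 1 → c S = 0 := by
    intro S hS
    have h : ¬ ∃ b, S = {b} := fun ⟨b, hb⟩ => hS (by rw [hb, Finset.card_singleton])
    simp only [c, dif_neg h]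
  have hsum : ∀ F : Finset κ → ℝ, (∀ S : Finset κ, S.card ≠ 1 → F S = 0) →
      ∑ S, F S = ∑ b, F {b} := by
    intro F hF
    symm
    apply Finset.sum_of_injOn (fun b => ({b} : Finset κ))
    · intro b _ b' _ h
      exact Finset.singleton_injective h
    · intro b _; exact Finset.mem_coe.2 (Finset.mem_univ _)
    · intro S _ hS
      apply hF
      intro h1
      obtain ⟨b, rfl⟩ := Finset.card_eq_one.1 h1
      exact hS ⟨b, Finset.mem_coe.2 (Finset.mem_univ _), rfl⟩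
    · intro b _; rfl
  have hml : ∀ x : κ → ℤˣ, ml c (sg x) = ∑ b, a b * sg x b := by
    intro x
    unfold ml
    rw [hsum _ (fun S hS => by rw [hc0 S hS, zero_mul])]
    refine Finset.sum_congr rfl fun b _ => ?_
    rw [hc1, Finset.prod_singleton]
  have hfc : ∀ S, fc (fun x : κ → ℤˣ => ∑ b, a b * sg x b) S = c S := by
    intro S
    have : (fun x : κ → ℤˣ => ∑ b, a b * sg x b) = fun x => ml c (sg x) :=
      funext fun x => (hml x).symm
    rw [this, fc_ml]
  have h := l2_le_l1 1 (fun x : κ → ℤˣ => ∑ b, a b * sg x b) (fun S hS => by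
    rw [hfc, hc0 S (by omega)])
  rw [parseval_sq] at h
  simp only [hfc] at h
  rw [hsum (fun S => c S ^ 2) (fun S hS => by rw [hc0 S hS]; norm_num)] at h
  simpa [hc1] using h

/-- The decoupled chaos. -/
noncomputable def chaos {m : ℕ} (T : (Fin m → κ) → ℝ) (ε : Fin m → κ → ℤˣ) : ℝ :=
  ∑ b, T b * ∏ l, sg (ε l) (b l)

lemma sum_cons {α : Type*} [Fintype α] {m : ℕ} (F : (Fin (m + 1) → α) → ℝ) :
    ∑ b, F b = ∑ b0, ∑ b' : Fin m → α, F (Fin.cons b0 b') := by
  rw [← (Fin.consEquiv (fun _ : Fin (m + 1) => α)).sum_comp, Fintype.sum_prod_type]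
  rfl

lemma chaos_cons {m : ℕ} (T : (Fin (m + 1) → κ) → ℝ) (ε0 : κ → ℤˣ) (ε' : Fin m → κ → ℤˣ) :
    chaos T (Fin.cons ε0 ε' : Fin (m + 1) → κ → ℤˣ)
      = ∑ b0, chaos (fun b' => T (Fin.cons b0 b')) ε' * sg ε0 b0 := by
  unfold chaos
  rw [sum_cons]
  refine Finset.sum_congr rfl fun b0 _ => ?_
  rw [Finset.sum_mul]
  refine Finset.sum_congr rfl fun b' _ => ?_
  rw [Fin.prod_univ_succ]
  simp only [Fin.cons_zero, Fin.cons_succ]
  ring

/-- Minkowski's inequality. -/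
lemma minkowski {α β : Type*} [Fintype α] [Fintype β] (g : α → β → ℝ) :
    Real.sqrt (∑ a, (∑ e, g a e) ^ 2) ≤ ∑ e, Real.sqrt (∑ a, g a e ^ 2) := by
  let v : β → EuclideanSpace ℝ α := fun e => WithLp.toLp 2 (fun a => g a e)
  have h := norm_sum_le Finset.univ v
  have h1 : ‖∑ e, v e‖ = Real.sqrt (∑ a, (∑ e, g a e) ^ 2) := by
    rw [EuclideanSpace.norm_eq]
    congr 1
    refine Finset.sum_congr rfl fun a _ => ?_
    have h3 : (∑ e, v e).ofLp a = ∑ e, g a e := by
      rw [WithLp.ofLp_sum, Finset.sum_apply]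
    rw [h3, Real.norm_eq_abs, sq_abs]
  have h2 : ∀ e, ‖v e‖ = Real.sqrt (∑ a, g a e ^ 2) := by
    intro e
    rw [EuclideanSpace.norm_eq]
    congr 1
    refine Finset.sum_congr rfl fun a _ => ?_
    rw [Real.norm_eq_abs, sq_abs]
  rw [h1] at h
  simpa [h2] using h

/-- Khinchine's inequality for decoupled multilinear forms. -/
theorem khin (m : ℕ) : ∀ T : (Fin m → κ) → ℝ,
    Real.sqrt (∑ b, T b ^ 2) ≤
      3 ^ m * ((∑ ε : Fin m → κ → ℤˣ, |chaos T ε|) / ((2 : ℝ) ^ Fintype.card κ) ^ m) := by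
  induction m with
  | zero =>
    intro T
    unfold chaos
    simp only [Fintype.sum_unique, Finset.univ_eq_empty, Finset.prod_empty, mul_one, pow_zero,
      div_one, one_mul]
    rw [Real.sqrt_sq_eq_abs]
  | succ m ih =>
    intro T
    set N : ℝ := (2 : ℝ) ^ Fintype.card κ with hN
    have hN0 : 0 < N := by positivity
    have h1 : ∑ b, T b ^ 2 = ∑ b0, Real.sqrt (∑ b' : Fin m → κ, T (Fin.cons b0 b') ^ 2) ^ 2 := by
      rw [sum_cons]
      refine Finset.sum_congr rfl fun b0 _ => ?_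
      rw [Real.sq_sqrt (Finset.sum_nonneg fun _ _ => sq_nonneg _)]
    have h2 : ∀ b0, Real.sqrt (∑ b' : Fin m → κ, T (Fin.cons b0 b') ^ 2) ≤
        ∑ ε' : Fin m → κ → ℤˣ, 3 ^ m / N ^ m * |chaos (fun b' => T (Fin.cons b0 b')) ε'| := by
      intro b0
      refine (ih (fun b' => T (Fin.cons b0 b'))).trans (le_of_eq ?_)
      rw [← Finset.mul_sum]; ring
    have h3 : Real.sqrt (∑ b, T b ^ 2) ≤ Real.sqrt (∑ b0, (∑ ε' : Fin m → κ → ℤˣ,
        3 ^ m / N ^ m * |chaos (fun b' => T (Fin.cons b0 b')) ε'|) ^ 2) := by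
      rw [h1]
      refine Real.sqrt_le_sqrt (Finset.sum_le_sum fun b0 _ => ?_)
      exact pow_le_pow_left₀ (Real.sqrt_nonneg _) (h2 b0) 2
    refine h3.trans ((minkowski _).trans ?_)
    have h4 : ∀ ε' : Fin m → κ → ℤˣ, Real.sqrt (∑ b0, (3 ^ m / N ^ m *
        |chaos (fun b' => T (Fin.cons b0 b')) ε'|) ^ 2) ≤
        3 ^ m / N ^ m * (3 * ((∑ ε0 : κ → ℤˣ, |chaos T (Fin.cons ε0 ε' : Fin (m + 1) → κ → ℤˣ)|) / N)) := by
      intro ε'
      have e1 : ∑ b0, (3 ^ m / N ^ m * |chaos (fun b' => T (Fin.cons b0 b')) ε'|) ^ 2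
          = (3 ^ m / N ^ m) ^ 2 * ∑ b0, chaos (fun b' => T (Fin.cons b0 b')) ε' ^ 2 := by
        rw [Finset.mul_sum]
        refine Finset.sum_congr rfl fun b0 _ => ?_
        rw [mul_pow, sq_abs]
      rw [e1, Real.sqrt_mul (sq_nonneg _), Real.sqrt_sq (by positivity)]
      refine mul_le_mul_of_nonneg_left ?_ (by positivity)
      refine (khin_one _).trans (le_of_eq ?_)
      unfold Ex
      congr 2
      refine Finset.sum_congr rfl fun ε0 _ => ?_
      rw [chaos_cons]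
    refine (Finset.sum_le_sum fun ε' _ => h4 ε').trans (le_of_eq ?_)
    have e2 : ∑ ε : Fin (m + 1) → κ → ℤˣ, |chaos T ε|
        = ∑ ε' : Fin m → κ → ℤˣ, ∑ ε0 : κ → ℤˣ,
          |chaos T (Fin.cons ε0 ε' : Fin (m + 1) → κ → ℤˣ)| := by
      rw [sum_cons, Finset.sum_comm]
    rw [e2, ← Finset.mul_sum, ← Finset.mul_sum, ← Finset.sum_div, pow_succ, pow_succ]
    field_simp

/-- The mixed norm inequality. -/
theorem mixed {m : ℕ} (U : (Fin (m + 1) → κ) → ℝ) (B : ℝ)
    (hB : ∀ ε : Fin (m + 1) → κ → ℤˣ, |chaos U ε| ≤ B) :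
    ∑ b0, Real.sqrt (∑ b' : Fin m → κ, U (Fin.cons b0 b') ^ 2) ≤ 3 ^ m * B := by
  have hN0 : (0 : ℝ) < ((2 : ℝ) ^ Fintype.card κ) ^ m := by positivity
  have h1 : ∀ ε' : Fin m → κ → ℤˣ,
      ∑ b0, |chaos (fun b' => U (Fin.cons b0 b')) ε'| ≤ B := by
    intro ε'
    let η : κ → ℤˣ := fun b0 => if 0 ≤ chaos (fun b' => U (Fin.cons b0 b')) ε' then 1 else -1
    have h2 : chaos U (Fin.cons η ε' : Fin (m + 1) → κ → ℤˣ)
        = ∑ b0, |chaos (fun b' => U (Fin.cons b0 b')) ε'| := by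
      rw [chaos_cons]
      refine Finset.sum_congr rfl fun b0 _ => ?_
      simp only [sg, η]
      split_ifs with h
      · rw [abs_of_nonneg h]; simp
      · push Not at h
        rw [abs_of_neg h]; simp
    rw [← h2]
    exact (le_abs_self _).trans (hB _)
  calc ∑ b0, Real.sqrt (∑ b' : Fin m → κ, U (Fin.cons b0 b') ^ 2)
      ≤ ∑ b0, 3 ^ m * ((∑ ε : Fin m → κ → ℤˣ, |chaos (fun b' => U (Fin.cons b0 b')) ε|)
          / ((2 : ℝ) ^ Fintype.card κ) ^ m) :=
        Finset.sum_le_sum fun b0 _ => khin m _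
    _ = 3 ^ m * ((∑ ε : Fin m → κ → ℤˣ, ∑ b0, |chaos (fun b' => U (Fin.cons b0 b')) ε|)
          / ((2 : ℝ) ^ Fintype.card κ) ^ m) := by
        rw [← Finset.mul_sum, ← Finset.sum_div, Finset.sum_comm]
    _ ≤ 3 ^ m * B := by
        refine mul_le_mul_of_nonneg_left ?_ (by positivity)
        rw [div_le_iff₀ hN0]
        refine (Finset.sum_le_sum fun ε' _ => h1 ε').trans (le_of_eq ?_)
        rw [Finset.sum_const, nsmul_eq_mul, Finset.card_univ, Fintype.card_fun, Fintype.card_fun]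
        simp only [Fintype.card_fin, Fintype.card_units_int]
        push_cast
        ring

end Pool.Agent.TH788.TW
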