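import Pool.Agent.TH788.TW.Trans

/-!
# The bound for one level
-/

set_option autoImplicit false
set_option linter.unusedSectionVars false

namespace Pool.Agent.TH788.TW

open Finset Pool.Agent.H722R2.AA Pool.Agent.H746R2.AA

variable {ι κ : Type*} [Fintype ι] [DecidableEq ι] [Fintype κ] [DecidableEq κ] {k : ℕ}

/-- The coefficients are invariant under exchanges of two elements of `L` in the same block. -/
def Twin (c : Finset ι → ℝ) (L : Finset ι) (blk : ι → κ) : Prop :=
  ∀ a ∈ L, ∀ b ∈ L, blk a = blk b → ∀ S : Finset ι, c (S.image (Equiv.swap a b)) = c S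

lemma twin_tuple {c : Finset ι → ℝ} {L : Finset ι} {blk : ι → κ} (hT : Twin c L blk) :
    ∀ (n : ℕ) (i j : Fin k → ι), Function.Injective i → Function.Injective j →
      (∀ l, i l ∈ L) → (∀ l, j l ∈ L) → (∀ l, blk (i l) = blk (j l)) →
      (univ.filter fun l => i l ≠ j l).card ≤ n → c (univ.image i) = c (univ.image j) := by
  intro n
  induction n with
  | zero =>
    intro i j _ _ _ _ _ hn
    have h : i = j := by
      funext l
      by_contra hcon
      have h1 := Finset.card_eq_zero.1 (Nat.le_zero.1 hn)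
      have h2 : l ∈ univ.filter fun l => i l ≠ j l := Finset.mem_filter.2 ⟨Finset.mem_univ l, hcon⟩
      rw [h1] at h2
      exact absurd h2 (Finset.notMem_empty l)
    rw [h]
  | succ n ih =>
    intro i j hi hj hiL hjL hbl hn
    by_cases hemp : (univ.filter fun l => i l ≠ j l) = ∅
    · apply ih i j hi hj hiL hjL hbl
      rw [hemp]; simp
    · obtain ⟨l, hl⟩ := Finset.nonempty_of_ne_empty hemp
      have hl' : i l ≠ j l := (Finset.mem_filter.1 hl).2
      set σ := Equiv.swap (i l) (j l) with hσ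
      have h1 : c (univ.image fun l' => σ (i l')) = c (univ.image i) := by
        rw [← hT (i l) (hiL l) (j l) (hjL l) (hbl l) (univ.image i), Finset.image_image]
        rfl
      rw [← h1]
      have hσb : ∀ x, blk (σ x) = blk x := by
        intro x
        by_cases hx1 : x = i l
        · rw [hx1, hσ, Equiv.swap_apply_left, hbl]
        · by_cases hx2 : x = j l
          · rw [hx2, hσ, Equiv.swap_apply_right, hbl]
          · rw [hσ, Equiv.swap_apply_of_ne_of_ne hx1 hx2]
      have hσL : ∀ x ∈ L, σ x ∈ L := by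
        intro x hx
        by_cases hx1 : x = i l
        · rw [hx1, hσ, Equiv.swap_apply_left]; exact hjL l
        · by_cases hx2 : x = j l
          · rw [hx2, hσ, Equiv.swap_apply_right]; exact hiL l
          · rw [hσ, Equiv.swap_apply_of_ne_of_ne hx1 hx2]; exact hx
      apply ih (fun l' => σ (i l')) j (σ.injective.comp hi) hj (fun l' => hσL _ (hiL l')) hjL
        (fun l' => by rw [hσb, hbl])
      have h2 : (univ.filter fun l' => σ (i l') ≠ j l') ⊆ (univ.filter fun l' => i l' ≠ j l').erase l := by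
        intro l' h'
        have h3 := (Finset.mem_filter.1 h').2
        have h4 : l' ≠ l := by
          rintro rfl
          exact h3 (by rw [hσ, Equiv.swap_apply_left])
        refine Finset.mem_erase.2 ⟨h4, Finset.mem_filter.2 ⟨Finset.mem_univ _, ?_⟩⟩
        intro h5
        apply h3
        have h6 : i l' ≠ i l := fun e => h4 (hi e)
        have h7 : i l' ≠ j l := by rw [h5]; exact fun e => h4 (hj e)
        rw [hσ, Equiv.swap_apply_of_ne_of_ne h6 h7, h5]
      have h3 := Finset.card_le_card h2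
      rw [Finset.card_erase_of_mem hl] at h3
      omega

/-- number of elements of the block of `i` in `L`. -/
def bs (L : Finset ι) (blk : ι → κ) (i : ι) : ℕ := (L.filter fun j => blk j = blk i).card

/-- number of elements of the block of `i` in `L` of colour `l`. -/
def bsc (L : Finset ι) (blk : ι → κ) (χ : ι → Fin k) (l : Fin k) (i : ι) : ℕ :=
  (L.filter fun j => χ j = l ∧ blk j = blk i).card

lemma U_eq {c : Finset ι → ℝ} {L : Finset ι} {blk : ι → κ} (hT : Twin c L blk) (χ : ι → Fin k)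
    (j : Fin k → ι) (hj : Function.Injective j) (hjL : ∀ l, j l ∈ L) :
    U c L blk χ (fun l => blk (j l)) = (∏ l, (bsc L blk χ l (j l) : ℝ)) * c (univ.image j) := by
  unfold U
  have h1 : ∀ i ∈ univ.filter (fun i : Fin k → ι => (∀ l, i l ∈ L ∧ χ (i l) = l) ∧
      (fun l => blk (i l)) = (fun l => blk (j l))), c (univ.image i) = c (univ.image j) := by
    intro i hi
    have h2 := (Finset.mem_filter.1 hi).2
    exact twin_tuple hT k i j (inj_of_chi fun l => (h2.1 l).2) hj (fun l => (h2.1 l).1) hjL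
      (fun l => congrFun h2.2 l) ((Finset.card_le_univ _).trans (by simp))
  rw [Finset.sum_congr rfl h1, Finset.sum_const, nsmul_eq_mul]
  congr 1
  have h3 : univ.filter (fun i : Fin k → ι => (∀ l, i l ∈ L ∧ χ (i l) = l) ∧
      (fun l => blk (i l)) = (fun l => blk (j l)))
      = Fintype.piFinset (fun l => L.filter fun x => χ x = l ∧ blk x = blk (j l)) := by
    ext i
    simp only [Finset.mem_filter, Finset.mem_univ, true_and, Fintype.mem_piFinset]
    constructor
    · rintro ⟨h, h'⟩ l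
      exact ⟨(h l).1, (h l).2, congrFun h' l⟩
    · intro h
      exact ⟨fun l => ⟨(h l).1, (h l).2.1⟩, funext fun l => (h l).2.2⟩
  rw [h3, Fintype.card_piFinset]
  push_cast
  rfl

lemma sq_c_le {c : Finset ι → ℝ} {L : Finset ι} {blk : ι → κ} (hT : Twin c L blk) (χ : ι → Fin k)
    (hχ : ∀ i ∈ L, ∀ l, bs L blk i ≤ 2 * k * bsc L blk χ l i)
    (j : Fin k → ι) (hj : Function.Injective j) (hjL : ∀ l, j l ∈ L) :
    c (univ.image j) ^ 2 ≤ U c L blk χ (fun l => blk (j l)) ^ 2 *
      ∏ l, (2 * k / (bs L blk (j l) : ℝ)) ^ 2 := by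
  rw [U_eq hT χ j hj hjL, mul_pow, ← Finset.prod_pow, mul_comm (∏ l, _) _, mul_assoc,
    ← Finset.prod_mul_distrib]
  have h1 : ∀ l, (1 : ℝ) ≤ (bsc L blk χ l (j l) : ℝ) ^ 2 * (2 * k / (bs L blk (j l) : ℝ)) ^ 2 := by
    intro l
    have hpos : (0 : ℝ) < bs L blk (j l) := by
      have : 0 < bs L blk (j l) := Finset.card_pos.2 ⟨j l, Finset.mem_filter.2 ⟨hjL l, rfl⟩⟩
      exact_mod_cast this
    have h2 : (bs L blk (j l) : ℝ) ≤ 2 * k * bsc L blk χ l (j l) := by
      exact_mod_cast hχ (j l) (hjL l) l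
    rw [← mul_pow]
    apply one_le_pow₀
    rw [mul_div_assoc', le_div_iff₀ hpos]
    linarith
  have h2 : (1 : ℝ) ≤ ∏ l, ((bsc L blk χ l (j l) : ℝ) ^ 2 * (2 * k / (bs L blk (j l) : ℝ)) ^ 2) := by
    calc (1 : ℝ) = ∏ _l : Fin k, (1 : ℝ) := by simp
      _ ≤ _ := Finset.prod_le_prod (fun _ _ => zero_le_one) fun l _ => h1 l
  nlinarith [sq_nonneg (c (univ.image j))]

/-- The injective enumerations of `T`. -/
lemma exists_tuples {m : ℕ} (T : Finset ι) (hT : T.card = m) :
    ∃ F : Finset (Fin m → ι), F.card = m.factorial ∧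
      ∀ j ∈ F, Function.Injective j ∧ univ.image j = T := by
  classical
  let e0 := (T.equivFinOfCardEq hT).symm
  have hinj : Function.Injective (fun (e : Fin m ≃ T) (l : Fin m) => ((e l : T) : ι)) := by
    intro e e' h
    ext l
    exact congrFun h l
  refine ⟨univ.image (fun (e : Fin m ≃ T) (l : Fin m) => ((e l : T) : ι)), ?_, ?_⟩
  · rw [Finset.card_image_of_injective _ hinj, Finset.card_univ, Fintype.card_equiv e0,
      Fintype.card_fin]
  · intro j hj
    obtain ⟨e, _, rfl⟩ := Finset.mem_image.1 hj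
    refine ⟨Subtype.val_injective.comp e.injective, ?_⟩
    ext x
    simp only [Finset.mem_image, Finset.mem_univ, true_and]
    constructor
    · rintro ⟨l, rfl⟩; exact (e l).2
    · intro hx
      exact ⟨e.symm ⟨x, hx⟩, by simp⟩

lemma sum_tuple {m : ℕ} (blk : ι → κ) (w : ι → ℝ) (F : (Fin m → κ) → ℝ) :
    ∑ j : Fin m → ι, F (fun l => blk (j l)) * ∏ l, w (j l)
      = ∑ b : Fin m → κ, F b * ∏ l, ∑ i ∈ univ.filter (fun i => blk i = b l), w i := by
  rw [← Finset.sum_fiberwise (univ : Finset (Fin m → ι)) (fun j l => blk (j l))]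
  refine Finset.sum_congr rfl fun b _ => ?_
  rw [Finset.prod_univ_sum, Finset.mul_sum]
  have h : univ.filter (fun j : Fin m → ι => (fun l => blk (j l)) = b)
      = Fintype.piFinset (fun l => univ.filter fun i => blk i = b l) := by
    ext j
    simp only [Finset.mem_filter, Finset.mem_univ, true_and, Fintype.mem_piFinset]
    exact ⟨fun h l => congrFun h l, fun h => funext h⟩
  rw [h]
  refine Finset.sum_congr rfl fun j hj => ?_
  have h2 : (fun l => blk (j l)) = b := by
    funext l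
    have := Fintype.mem_piFinset.1 hj l
    exact (Finset.mem_filter.1 this).2
  rw [h2]

/-- the weights -/
noncomputable def wt (L : Finset ι) (blk : ι → κ) (i : ι) : ℝ :=
  if i ∈ L then 1 / (bs L blk i : ℝ) else 0

lemma wt_nonneg (L : Finset ι) (blk : ι → κ) (i : ι) : 0 ≤ wt L blk i := by
  unfold wt; split_ifs
  · positivity
  · exact le_rfl

lemma sum_wt_le (L : Finset ι) (blk : ι → κ) (β : κ) :
    ∑ i ∈ univ.filter (fun i => blk i = β), wt L blk i ≤ 1 := by
  have h1 : ∑ i ∈ univ.filter (fun i => blk i = β), wt L blk i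
      = ∑ i ∈ L.filter (fun i => blk i = β), 1 / ((L.filter fun i => blk i = β).card : ℝ) := by
    unfold wt
    rw [← Finset.sum_filter, Finset.filter_filter]
    have : (univ.filter fun i => blk i = β ∧ i ∈ L) = L.filter (fun i => blk i = β) := by
      ext i; simp [and_comm]
    rw [this]
    refine Finset.sum_congr rfl fun i hi => ?_
    have := (Finset.mem_filter.1 hi).2
    unfold bs
    rw [this]
  rw [h1, Finset.sum_const, nsmul_eq_mul]
  rcases Nat.eq_zero_or_pos (L.filter fun i => blk i = β).card with h | h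
  · rw [h]; simp
  · have : ((L.filter fun i => blk i = β).card : ℝ) ≠ 0 := by exact_mod_cast h.ne'
    field_simp
    exact le_rfl

/-- Level `k` influence -/
noncomputable def lev (c : Finset ι → ℝ) (k : ℕ) (i0 : ι) : ℝ :=
  ∑ S : Finset ι, if i0 ∈ S ∧ S.card = k then c S ^ 2 else 0

lemma lev_nonneg (c : Finset ι → ℝ) (k : ℕ) (i0 : ι) : 0 ≤ lev c k i0 :=
  Finset.sum_nonneg fun S _ => by split_ifs <;> positivity

lemma lev_le {m : ℕ} {c : Finset ι → ℝ} {L : Finset ι} (hL : ∀ S, ¬ S ⊆ L → c S = 0)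
    {blk : ι → κ} (hT : Twin c L blk) (χ : ι → Fin (m + 1))
    (hχ : ∀ i ∈ L, ∀ l, bs L blk i ≤ 2 * (m + 1) * bsc L blk χ l i)
    (a : ℝ) (ha : 0 < a) (haL : ∀ i ∈ L, a ≤ bs L blk i) (i0 : ι) :
    (m.factorial : ℝ) * lev c (m + 1) i0 ≤
      (2 * (m + 1) / (bs L blk i0 : ℝ)) ^ 2 * ((2 * (m + 1)) ^ 2 / a) ^ m *
      ∑ b' : Fin m → κ, U c L blk χ (Fin.cons (blk i0) b' : Fin (m + 1) → κ) ^ 2 := by
  classical
  let G : (Fin m → ι) → ℝ := fun j =>
    (2 * (m + 1) / (bs L blk i0 : ℝ)) ^ 2 * ((2 * (m + 1)) ^ 2 / a) ^ m *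
      (U c L blk χ (Fin.cons (blk i0) (fun l => blk (j l)) : Fin (m + 1) → κ) ^ 2 *
        ∏ l, wt L blk (j l))
  have hG0 : ∀ j, 0 ≤ G j := by
    intro j
    have := Finset.prod_nonneg (s := univ) (f := fun l => wt L blk (j l))
      fun l _ => wt_nonneg L blk (j l)
    positivity
  let 𝒮 : Finset (Finset ι) := univ.filter fun S => (i0 ∈ S ∧ S.card = m + 1) ∧ S ⊆ L
  have h1 : lev c (m + 1) i0 = ∑ S ∈ 𝒮, c S ^ 2 := by
    unfold lev
    rw [Finset.sum_filter]
    refine Finset.sum_congr rfl fun S _ => ?_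
    by_cases hS : S ⊆ L
    · simp [hS]
    · rw [hL S hS]; simp [hS]
  have h2 : ∀ S ∈ 𝒮, ∃ F : Finset (Fin m → ι), F.card = m.factorial ∧
      ∀ j ∈ F, Function.Injective j ∧ univ.image j = S.erase i0 := by
    intro S hS
    have h := (Finset.mem_filter.1 hS).2
    apply exists_tuples
    rw [Finset.card_erase_of_mem h.1.1, h.1.2]; rfl
  choose! F hF1 hF2 using h2
  have hdisj : (𝒮 : Set (Finset ι)).PairwiseDisjoint F := by
    intro S hS S' hS' hne
    rw [Function.onFun, Finset.disjoint_left]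
    intro j hj hj'
    apply hne
    have e1 := (hF2 S hS j hj).2
    have e2 := (hF2 S' hS' j hj').2
    rw [e2] at e1
    have m1 := ((Finset.mem_filter.1 (Finset.mem_coe.1 hS)).2).1.1
    have m2 := ((Finset.mem_filter.1 (Finset.mem_coe.1 hS')).2).1.1
    rw [← Finset.insert_erase m1, ← Finset.insert_erase m2, e1]
  have h3' : ∀ S ∈ 𝒮, ∀ j : Fin m → ι, Function.Injective j → univ.image j = S.erase i0 →
      c S ^ 2 ≤ G j := by
    intro S hS j hj1 hj2
    have h := (Finset.mem_filter.1 hS).2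
    have hjn : i0 ∉ Set.range j := by
      rintro ⟨l, hl⟩
      have : j l ∈ univ.image j := Finset.mem_image_of_mem _ (Finset.mem_univ l)
      rw [hj2, hl] at this
      exact (Finset.ne_of_mem_erase this) rfl
    have hinj : Function.Injective (Fin.cons i0 j : Fin (m + 1) → ι) :=
      Fin.cons_injective_iff.2 ⟨hjn, hj1⟩
    have himg : univ.image (Fin.cons i0 j : Fin (m + 1) → ι) = S := by
      rw [← Finset.insert_erase h.1.1, ← hj2]
      ext x
      simp only [Finset.mem_image, Finset.mem_univ, true_and, Finset.mem_insert]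
      rw [Fin.exists_fin_succ]
      simp only [Fin.cons_zero, Fin.cons_succ]
      constructor
      · rintro (h | h)
        · exact Or.inl h.symm
        · exact Or.inr h
      · rintro (h | h)
        · exact Or.inl h.symm
        · exact Or.inr h
    have hmem : ∀ l, (Fin.cons i0 j : Fin (m + 1) → ι) l ∈ L := by
      intro l
      apply h.2
      rw [← himg]
      exact Finset.mem_image_of_mem _ (Finset.mem_univ l)
    have hJL : ∀ l, j l ∈ L := fun l => by
      have := hmem l.succ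
      rwa [Fin.cons_succ] at this
    have hkey := sq_c_le hT χ (by exact_mod_cast hχ) _ hinj hmem
    rw [himg, Fin.prod_univ_succ] at hkey
    simp only [Fin.cons_zero, Fin.cons_succ] at hkey
    have hb : (fun l => blk ((Fin.cons i0 j : Fin (m + 1) → ι) l))
        = (Fin.cons (blk i0) (fun l => blk (j l)) : Fin (m + 1) → κ) := by
      funext l
      refine Fin.cases ?_ (fun l => ?_) l
      · simp
      · simp
    rw [hb] at hkey
    refine hkey.trans ?_
    simp only [G]
    have hprod : ∏ l, (2 * ((m + 1 : ℕ) : ℝ) / (bs L blk (j l) : ℝ)) ^ 2 ≤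
        ((2 * (m + 1)) ^ 2 / a) ^ m * ∏ l, wt L blk (j l) := by
      have e1 : ((2 * ((m : ℝ) + 1)) ^ 2 / a) ^ m * ∏ l, wt L blk (j l)
          = ∏ l : Fin m, ((2 * ((m : ℝ) + 1)) ^ 2 / a * wt L blk (j l)) := by
        rw [Finset.prod_mul_distrib, Finset.prod_const, Finset.card_univ, Fintype.card_fin]
      rw [e1]
      refine Finset.prod_le_prod (fun l _ => by positivity) fun l _ => ?_
      have hA : a ≤ bs L blk (j l) := haL _ (hJL l)
      have hA0 : (0 : ℝ) < bs L blk (j l) := lt_of_lt_of_le ha hA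
      unfold wt
      rw [if_pos (hJL l), div_pow, mul_one_div, div_div]
      push_cast
      apply div_le_div_of_nonneg_left (by positivity) (by positivity)
      rw [sq]
      exact mul_le_mul_of_nonneg_right hA hA0.le
    have hpos : 0 ≤ U c L blk χ (Fin.cons (blk i0) (fun l => blk (j l)) : Fin (m + 1) → κ) ^ 2 *
        (2 * ((m + 1 : ℕ) : ℝ) / (bs L blk i0 : ℝ)) ^ 2 := by positivity
    have := mul_le_mul_of_nonneg_left hprod hpos
    push_cast at this ⊢
    calc _ = U c L blk χ (Fin.cons (blk i0) (fun l => blk (j l)) : Fin (m + 1) → κ) ^ 2 *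
        (2 * ((m : ℝ) + 1) / (bs L blk i0 : ℝ)) ^ 2 *
          ∏ l, (2 * ((m : ℝ) + 1) / (bs L blk (j l) : ℝ)) ^ 2 := by ring
      _ ≤ _ := this
      _ = _ := by ring
  have h3 : ∀ S ∈ 𝒮, (m.factorial : ℝ) * c S ^ 2 ≤ ∑ j ∈ F S, G j := by
    intro S hS
    rw [← hF1 S hS, ← nsmul_eq_mul]
    exact Finset.card_nsmul_le_sum _ _ _ fun j hj =>
      h3' S hS j (hF2 S hS j hj).1 (hF2 S hS j hj).2
  calc (m.factorial : ℝ) * lev c (m + 1) i0 = ∑ S ∈ 𝒮, (m.factorial : ℝ) * c S ^ 2 := by
        rw [h1, Finset.mul_sum]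
    _ ≤ ∑ S ∈ 𝒮, ∑ j ∈ F S, G j := Finset.sum_le_sum h3
    _ = ∑ j ∈ 𝒮.biUnion F, G j := (Finset.sum_biUnion hdisj).symm
    _ ≤ ∑ j, G j := Finset.sum_le_sum_of_subset_of_nonneg (Finset.subset_univ _)
        fun j _ _ => hG0 j
    _ = (2 * (m + 1) / (bs L blk i0 : ℝ)) ^ 2 * ((2 * (m + 1)) ^ 2 / a) ^ m *
        ∑ j : Fin m → ι, (U c L blk χ (Fin.cons (blk i0) (fun l => blk (j l)) : Fin (m + 1) → κ) ^ 2 *
          ∏ l, wt L blk (j l)) := by
        rw [Finset.mul_sum]
    _ ≤ _ := by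
        refine mul_le_mul_of_nonneg_left ?_ (by positivity)
        rw [sum_tuple blk (wt L blk)
          (fun b' => U c L blk χ (Fin.cons (blk i0) b' : Fin (m + 1) → κ) ^ 2)]
        refine Finset.sum_le_sum fun b' _ => ?_
        refine mul_le_of_le_one_right (sq_nonneg _) ?_
        exact Finset.prod_le_one (fun l _ => Finset.sum_nonneg fun i _ => wt_nonneg L blk i)
          fun l _ => sum_wt_le L blk (b' l)

/-- The bound for one level. -/
theorem level {m : ℕ} {c : Finset ι → ℝ} {L : Finset ι} (hL : ∀ S, ¬ S ⊆ L → c S = 0) (d : ℕ)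
    (hd : ∀ S, d < S.card → c S = 0) (B : ℝ) (hB : ∀ y, IsSgn y → |ml c y| ≤ B)
    {blk : ι → κ} (hT : Twin c L blk) (χ : ι → Fin (m + 1))
    (hχ : ∀ i ∈ L, ∀ l, bs L blk i ≤ 2 * (m + 1) * bsc L blk χ l i)
    (a : ℝ) (ha : 0 < a) (haL : ∀ i ∈ L, a ≤ bs L blk i) :
    ∑ i, Real.sqrt (lev c (m + 1) i) ≤
      2 * Real.exp 1 * d * ((6 * Real.exp 1 * d / Real.sqrt a) ^ m / Real.sqrt m.factorial) * B := by
  classical
  have hsa : 0 < Real.sqrt a := Real.sqrt_pos.2 ha
  let W : κ → ℝ := fun β => Real.sqrt (∑ b' : Fin m → κ,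
    U c L blk χ (Fin.cons β b' : Fin (m + 1) → κ) ^ 2)
  have hW0 : ∀ β, 0 ≤ W β := fun β => Real.sqrt_nonneg _
  have hf0 : (0 : ℝ) < m.factorial := by exact_mod_cast m.factorial_pos
  have hsf : 0 < Real.sqrt m.factorial := Real.sqrt_pos.2 hf0
  set R : ℝ := 2 * (m + 1) * (2 * (m + 1) / Real.sqrt a) ^ m / Real.sqrt m.factorial with hR
  have hR0 : 0 ≤ R := by positivity
  have h1 : ∀ i, Real.sqrt (lev c (m + 1) i) ≤ R * (wt L blk i * W (blk i)) := by
    intro i
    by_cases hi : i ∈ L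
    · have h2 := lev_le hL hT χ hχ a ha haL i
      have h3 := Real.sqrt_le_sqrt h2
      rw [Real.sqrt_mul hf0.le, mul_comm, ← le_div_iff₀ hsf] at h3
      refine h3.trans (le_of_eq ?_)
      rw [Real.sqrt_mul (by positivity), Real.sqrt_mul (sq_nonneg _), Real.sqrt_sq (by positivity)]
      have e1 : Real.sqrt (((2 * ((m : ℝ) + 1)) ^ 2 / a) ^ m) = (2 * (m + 1) / Real.sqrt a) ^ m := by
        have : ((2 * ((m : ℝ) + 1)) ^ 2 / a) = (2 * (m + 1) / Real.sqrt a) ^ 2 := by
          rw [div_pow, Real.sq_sqrt ha.le]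
        rw [this, ← pow_mul, mul_comm 2 m, pow_mul, Real.sqrt_sq (by positivity)]
      rw [e1, hR]
      unfold wt
      rw [if_pos hi]
      ring
    · have h2 : lev c (m + 1) i = 0 := by
        unfold lev
        refine Finset.sum_eq_zero fun S _ => ?_
        split_ifs with h
        · rw [hL S (fun hS => hi (hS h.1))]; norm_num
        · rfl
      rw [h2, Real.sqrt_zero]
      exact mul_nonneg hR0 (mul_nonneg (wt_nonneg L blk i) (hW0 _))
  have h4 : ∑ i, wt L blk i * W (blk i) ≤ ∑ β, W β := by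
    rw [← Finset.sum_fiberwise univ blk]
    refine Finset.sum_le_sum fun β _ => ?_
    have : ∑ i ∈ univ.filter (fun i => blk i = β), wt L blk i * W (blk i)
        = (∑ i ∈ univ.filter (fun i => blk i = β), wt L blk i) * W β := by
      rw [Finset.sum_mul]
      refine Finset.sum_congr rfl fun i hi => ?_
      rw [(Finset.mem_filter.1 hi).2]
    rw [this]
    exact mul_le_of_le_one_left (hW0 β) (sum_wt_le L blk β)
  have h5 : ∑ β, W β ≤ 3 ^ m * ((Real.exp 1 * d / ((m + 1 : ℕ) : ℝ)) ^ (m + 1) * B) :=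
    mixed (U c L blk χ) _ (fun ε => chaos_le c L hL d hd B hB blk (by omega) χ ε)
  have h6 : ∑ i, Real.sqrt (lev c (m + 1) i) ≤
      R * (3 ^ m * ((Real.exp 1 * d / ((m + 1 : ℕ) : ℝ)) ^ (m + 1) * B)) := by
    refine (Finset.sum_le_sum fun i _ => h1 i).trans ?_
    rw [← Finset.mul_sum]
    exact mul_le_mul_of_nonneg_left (h4.trans h5) hR0
  refine h6.trans (le_of_eq ?_)
  rw [hR]
  push_cast
  have hm : ((m : ℝ) + 1) ≠ 0 := by positivity
  have hs := hsa.ne'
  have hs' := hsf.ne'
  rw [div_pow, div_pow, div_pow, mul_pow (2 : ℝ), mul_pow (Real.exp 1), mul_pow (6 * Real.exp 1),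
    mul_pow (6 : ℝ), pow_succ (Real.exp 1), pow_succ (d : ℝ), pow_succ ((m : ℝ) + 1)]
  have h7 : (6 : ℝ) ^ m = 2 ^ m * 3 ^ m := by rw [← mul_pow]; norm_num
  rw [h7]
  field_simp

end Pool.Agent.TH788.TW
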