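import Pool.Agent.TH788.TW.Level

/-!
# Equitable colourings of the blocks, and the sum over the levels
-/

set_option autoImplicit false
set_option linter.unusedSectionVars false

namespace Pool.Agent.TH788.TW

open Finset Pool.Agent.H722R2.AA Pool.Agent.H746R2.AA

variable {ι κ : Type*} [Fintype ι] [DecidableEq ι] [Fintype κ] [DecidableEq κ]

lemma split_one (T : Finset ι) (m : ℕ) :
    ∃ χ : ι → Fin (m + 1), ∀ l, T.card / (m + 1) ≤ (T.filter fun j => χ j = l).card := by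
  classical
  let e := T.equivFin
  refine ⟨fun j => if h : j ∈ T then ⟨(e ⟨j, h⟩ : ℕ) % (m + 1), Nat.mod_lt _ (by omega)⟩ else 0, ?_⟩
  intro l
  have hlt : ∀ t : Fin (T.card / (m + 1)), (t : ℕ) * (m + 1) + l < T.card := by
    intro t
    have h1 : ((t : ℕ) + 1) * (m + 1) ≤ T.card := by
      have : ((t : ℕ) + 1) * (m + 1) ≤ (T.card / (m + 1)) * (m + 1) := Nat.mul_le_mul_right _ t.2
      exact this.trans (Nat.div_mul_le_self _ _)
    have h2 := l.2
    nlinarith
  let F : Fin (T.card / (m + 1)) → ι := fun t => ((e.symm ⟨(t : ℕ) * (m + 1) + l, hlt t⟩ : T) : ι)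
  have hF : Function.Injective F := by
    intro t t' h
    have h1 := e.symm.injective (Subtype.val_injective h)
    have h2 := congrArg Fin.val h1
    simp only at h2
    have h3 : (t : ℕ) * (m + 1) = (t' : ℕ) * (m + 1) := by omega
    exact Fin.ext (Nat.eq_of_mul_eq_mul_right (by omega) h3)
  have h1 : (univ.image F).card = T.card / (m + 1) := by
    rw [Finset.card_image_of_injective _ hF, Finset.card_univ, Fintype.card_fin]
  rw [← h1]
  apply Finset.card_le_card
  intro x hx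
  obtain ⟨t, _, rfl⟩ := Finset.mem_image.1 hx
  have hmem : F t ∈ T := (e.symm ⟨(t : ℕ) * (m + 1) + l, hlt t⟩).2
  refine Finset.mem_filter.2 ⟨hmem, ?_⟩
  beta_reduce
  rw [dif_pos hmem]
  apply Fin.ext
  have h2 : e ⟨F t, hmem⟩ = ⟨(t : ℕ) * (m + 1) + l, hlt t⟩ := by
    have : (⟨F t, hmem⟩ : T) = e.symm ⟨(t : ℕ) * (m + 1) + l, hlt t⟩ := Subtype.ext rfl
    rw [this, Equiv.apply_symm_apply]
  simp only [h2]
  rw [Nat.mul_comm, Nat.mul_add_mod, Nat.mod_eq_of_lt l.2]

lemma split (L : Finset ι) (blk : ι → κ) (m : ℕ) (hm : ∀ i ∈ L, m + 1 ≤ bs L blk i) :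
    ∃ χ : ι → Fin (m + 1), ∀ i ∈ L, ∀ l, bs L blk i ≤ 2 * (m + 1) * bsc L blk χ l i := by
  classical
  choose χ hχ using fun β : κ => split_one (L.filter fun j => blk j = β) m
  refine ⟨fun j => χ (blk j) j, fun i hi l => ?_⟩
  have h1 := hχ (blk i) l
  have h2 : bsc L blk (fun j => χ (blk j) j) l i
      = ((L.filter fun j => blk j = blk i).filter fun j => χ (blk i) j = l).card := by
    unfold bsc
    rw [Finset.filter_filter]
    congr 1
    ext j
    simp only [Finset.mem_filter]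
    constructor
    · rintro ⟨a, b, c⟩; exact ⟨a, c, by rw [← b, c]⟩
    · rintro ⟨a, c, b⟩; exact ⟨a, by rw [c]; exact b, c⟩
  rw [h2]
  have h3 : bs L blk i = (L.filter fun j => blk j = blk i).card := rfl
  rw [← h3] at h1
  have h4 := hm i hi
  have h5 : 1 ≤ bs L blk i / (m + 1) := (Nat.one_le_div_iff (by omega)).2 h4
  have h6 := Nat.div_add_mod (bs L blk i) (m + 1)
  have h7 := Nat.mod_lt (bs L blk i) (show 0 < m + 1 by omega)
  calc bs L blk i ≤ (m + 1) * (bs L blk i / (m + 1)) + (m + 1) := by omega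
    _ ≤ 2 * (m + 1) * (bs L blk i / (m + 1)) := by nlinarith
    _ ≤ _ := Nat.mul_le_mul_left _ h1

/-- The derivative is controlled by the levels. -/
lemma sqrt_sum_le {α : Type*} (s : Finset α) (f : α → ℝ) (hf : ∀ a ∈ s, 0 ≤ f a) :
    Real.sqrt (∑ a ∈ s, f a) ≤ ∑ a ∈ s, Real.sqrt (f a) := by
  classical
  induction s using Finset.induction_on with
  | empty => simp
  | insert a s ha ih =>
    rw [Finset.sum_insert ha, Finset.sum_insert ha]
    have h1 : 0 ≤ f a := hf a (Finset.mem_insert_self a s)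
    have h2 : ∀ b ∈ s, 0 ≤ f b := fun b hb => hf b (Finset.mem_insert_of_mem hb)
    have h3 := ih h2
    have h4 : Real.sqrt (f a + ∑ b ∈ s, f b) ≤ Real.sqrt (f a) + Real.sqrt (∑ b ∈ s, f b) := by
      rw [Real.sqrt_le_left (by positivity)]
      have e1 := Real.sq_sqrt h1
      have e2 := Real.sq_sqrt (Finset.sum_nonneg h2)
      nlinarith [Real.sqrt_nonneg (f a), Real.sqrt_nonneg (∑ b ∈ s, f b),
        mul_nonneg (Real.sqrt_nonneg (f a)) (Real.sqrt_nonneg (∑ b ∈ s, f b))]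
    linarith

lemma infl_le (c : Finset ι → ℝ) (d : ℕ) (hd : ∀ S, d < S.card → c S = 0) (i : ι) :
    Real.sqrt (∑ S : Finset ι, if i ∈ S then c S ^ 2 else 0)
      ≤ ∑ m ∈ Finset.range d, Real.sqrt (lev c (m + 1) i) := by
  have h1 : ∑ S : Finset ι, (if i ∈ S then c S ^ 2 else 0)
      = ∑ m ∈ Finset.range d, lev c (m + 1) i := by
    unfold lev
    rw [Finset.sum_comm]
    refine Finset.sum_congr rfl fun S _ => ?_
    by_cases hi : i ∈ S
    · rw [if_pos hi]
      have hS : 0 < S.card := Finset.card_pos.2 ⟨i, hi⟩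
      by_cases hS2 : S.card ≤ d
      · rw [Finset.sum_eq_single (S.card - 1)]
        · rw [if_pos ⟨hi, by omega⟩]
        · intro m _ hm
          rw [if_neg]
          rintro ⟨_, h⟩; omega
        · intro h
          exfalso; apply h
          exact Finset.mem_range.2 (by omega)
      · rw [hd S (by omega)]
        symm
        simp
    · rw [if_neg hi]
      symm
      refine Finset.sum_eq_zero fun m _ => ?_
      rw [if_neg]
      rintro ⟨h, _⟩; exact hi h
  rw [h1]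
  exact sqrt_sum_le _ _ fun m _ => lev_nonneg c (m + 1) i

lemma geom_half (d : ℕ) : ∑ m ∈ Finset.range d, (1 / 2 : ℝ) ^ m ≤ 2 := by
  have h : ∑ m ∈ Finset.range d, (1 / 2 : ℝ) ^ m = 2 - 2 * (1 / 2 : ℝ) ^ d := by
    rw [geom_sum_eq (by norm_num)]
    ring
  rw [h]
  have : (0 : ℝ) ≤ (1 / 2 : ℝ) ^ d := by positivity
  linarith

lemma series_le (x : ℝ) (d : ℕ) :
    ∑ m ∈ Finset.range d, x ^ m / Real.sqrt m.factorial ≤ 3 / 2 * Real.exp (2 * x ^ 2) := by
  have h1 : ∀ m ∈ Finset.range d, x ^ m / Real.sqrt m.factorial ≤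
      1 / 2 * ((1 / 2 : ℝ) ^ m + (2 * x ^ 2) ^ m / m.factorial) := by
    intro m _
    have hf0 : (0 : ℝ) < m.factorial := by exact_mod_cast m.factorial_pos
    have h2 : (2 * x ^ 2) ^ m / m.factorial = 2 ^ m * (x ^ m / Real.sqrt m.factorial) ^ 2 := by
      rw [div_pow, Real.sq_sqrt hf0.le, mul_pow, ← pow_mul, ← pow_mul, mul_comm 2 m]
      ring
    have h3 : (1 / 2 : ℝ) ^ m * 2 ^ m = 1 := by rw [← mul_pow]; norm_num
    rw [h2]
    set u := x ^ m / Real.sqrt m.factorial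
    have h4 : (0 : ℝ) < 2 ^ m := by positivity
    have h5 : (1 / 2 : ℝ) ^ m = 1 / 2 ^ m := by rw [div_pow, one_pow]
    rw [h5]
    have h6 : 1 / (2 : ℝ) ^ m + 2 ^ m * u ^ 2 - 2 * u = (2 ^ m * u - 1) ^ 2 / 2 ^ m := by
      field_simp
      ring
    have h7 : 0 ≤ (2 ^ m * u - 1) ^ 2 / (2 : ℝ) ^ m := by positivity
    linarith
  refine (Finset.sum_le_sum h1).trans ?_
  rw [← Finset.mul_sum, Finset.sum_add_distrib]
  have h2 := geom_half d
  have h3 := Real.sum_le_exp_of_nonneg (show (0 : ℝ) ≤ 2 * x ^ 2 by positivity) d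
  have h4 : 1 ≤ Real.exp (2 * x ^ 2) := Real.one_le_exp (by positivity)
  linarith

/-- **Main bound**: the sum of the `L²` norms of the derivatives. -/
theorem sum_infl_le {c : Finset ι → ℝ} {L : Finset ι} (hL : ∀ S, ¬ S ⊆ L → c S = 0) (d : ℕ)
    (hd : ∀ S, d < S.card → c S = 0) (B : ℝ) (hB : ∀ y, IsSgn y → |ml c y| ≤ B)
    {blk : ι → κ} (hT : Twin c L blk) (a : ℕ) (ha1 : 1 ≤ a) (had : d ≤ a)
    (haL : ∀ i ∈ L, a ≤ bs L blk i) :
    ∑ i, Real.sqrt (∑ S : Finset ι, if i ∈ S then c S ^ 2 else 0) ≤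
      9 * d * Real.exp (600 * d ^ 2 / a) * B := by
  have hB0 : 0 ≤ B := (abs_nonneg _).trans (hB (fun _ => 1) fun _ => Or.inl rfl)
  have he : Real.exp 1 < 2.7182818286 := Real.exp_one_lt_d9
  have he0 : 0 < Real.exp 1 := Real.exp_pos 1
  have ha0 : (0 : ℝ) < a := by exact_mod_cast ha1
  set x : ℝ := 6 * Real.exp 1 * d / Real.sqrt a with hx
  have hx0 : 0 ≤ x := by positivity
  have hx2 : 2 * x ^ 2 ≤ 600 * (d : ℝ) ^ 2 / a := by
    rw [hx, div_pow, Real.sq_sqrt ha0.le, mul_div_assoc']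
    apply div_le_div_of_nonneg_right _ ha0.le
    have h1 : Real.exp 1 ^ 2 ≤ 7.4 := by nlinarith
    have h2 : 0 ≤ (d : ℝ) ^ 2 := by positivity
    nlinarith
  have hlev : ∀ m ∈ Finset.range d, ∑ i, Real.sqrt (lev c (m + 1) i) ≤
      2 * Real.exp 1 * d * B * (x ^ m / Real.sqrt m.factorial) := by
    intro m hm
    have hmd : m < d := Finset.mem_range.1 hm
    obtain ⟨χ, hχ⟩ := split L blk m (fun i hi => by
      have := haL i hi
      omega)
    have h1 := level hL d hd B hB hT χ hχ a ha0 (fun i hi => by exact_mod_cast haL i hi)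
    refine h1.trans (le_of_eq ?_)
    ring
  calc ∑ i, Real.sqrt (∑ S : Finset ι, if i ∈ S then c S ^ 2 else 0)
      ≤ ∑ i, ∑ m ∈ Finset.range d, Real.sqrt (lev c (m + 1) i) :=
        Finset.sum_le_sum fun i _ => infl_le c d hd i
    _ = ∑ m ∈ Finset.range d, ∑ i, Real.sqrt (lev c (m + 1) i) := Finset.sum_comm
    _ ≤ ∑ m ∈ Finset.range d, 2 * Real.exp 1 * d * B * (x ^ m / Real.sqrt m.factorial) :=
        Finset.sum_le_sum hlev
    _ = 2 * Real.exp 1 * d * B * ∑ m ∈ Finset.range d, x ^ m / Real.sqrt m.factorial := by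
        rw [Finset.mul_sum]
    _ ≤ 2 * Real.exp 1 * d * B * (3 / 2 * Real.exp (2 * x ^ 2)) :=
        mul_le_mul_of_nonneg_left (series_le x d) (by positivity)
    _ ≤ 2 * Real.exp 1 * d * B * (3 / 2 * Real.exp (600 * (d : ℝ) ^ 2 / a)) := by
        apply mul_le_mul_of_nonneg_left _ (by positivity)
        apply mul_le_mul_of_nonneg_left _ (by norm_num)
        exact Real.exp_le_exp.2 hx2
    _ ≤ 9 * d * Real.exp (600 * d ^ 2 / a) * B := by
        have h1 : 0 ≤ (d : ℝ) * B * Real.exp (600 * (d : ℝ) ^ 2 / a) := by positivity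
        nlinarith

end Pool.Agent.TH788.TW
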