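import Pool.Agent.TH275.AL.Mixture
import Pool.Agent.TH788.TW.Split

/-!
# The strong inequality for functions with twins and their mixtures
-/

set_option autoImplicit false
set_option linter.unusedSectionVars false

namespace Pool.Agent.TH788.TW

open Finset Pool.Agent.H722R2.AA Pool.Agent.H746R2.AA

variable {ι κ : Type*} [Fintype ι] [DecidableEq ι] [Fintype κ] [DecidableEq κ]

lemma Ex_comp_perm (σ : Equiv.Perm ι) (F : (ι → ℤˣ) → ℝ) :
    Ex (fun x => F (fun i => x (σ i))) = Ex F := by
  unfold Ex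
  congr 1
  exact (Equiv.arrowCongr σ.symm (Equiv.refl ℤˣ)).sum_comp F

lemma fc_swap (g : (ι → ℤˣ) → ℝ) (σ : Equiv.Perm ι) (hg : ∀ x : ι → ℤˣ, g (fun i => x (σ i)) = g x)
    (S : Finset ι) : fc g (S.image σ) = fc g S := by
  rw [fc_eq_Ex, fc_eq_Ex, ← Ex_comp_perm σ (fun x => g x * ∏ i ∈ S, sg x i)]
  refine Ex_congr fun x => ?_
  rw [hg x, Finset.prod_image fun a _ b _ h => σ.injective h]
  rfl

lemma swap_mem {A : Finset ι} {a b : ι} (ha : a ∉ A) (hb : b ∉ A) (i : ι) :
    Equiv.swap a b i ∈ A ↔ i ∈ A := by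
  by_cases h1 : i = a
  · subst h1; rw [Equiv.swap_apply_left]; exact ⟨fun h => absurd h hb, fun h => absurd h ha⟩
  · by_cases h2 : i = b
    · subst h2; rw [Equiv.swap_apply_right]; exact ⟨fun h => absurd h ha, fun h => absurd h hb⟩
    · rw [Equiv.swap_apply_of_ne_of_ne h1 h2]

lemma piecewise_swap {A : Finset ι} {a b : ι} (ha : a ∉ A) (hb : b ∉ A) (z y : ι → ℤˣ) :
    A.piecewise z (fun i => y (Equiv.swap a b i))
      = fun i => (A.piecewise z y) (Equiv.swap a b i) := by
  funext i
  by_cases hi : i ∈ A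
  · have h1 : Equiv.swap a b i = i := by
      apply Equiv.swap_apply_of_ne_of_ne
      · rintro rfl; exact ha hi
      · rintro rfl; exact hb hi
    rw [h1, Finset.piecewise_eq_of_mem _ _ _ hi, Finset.piecewise_eq_of_mem _ _ _ hi]
  · have h1 : Equiv.swap a b i ∉ A := fun h => hi ((swap_mem ha hb i).1 h)
    rw [Finset.piecewise_eq_of_notMem _ _ _ hi, Finset.piecewise_eq_of_notMem _ _ _ h1]

lemma proj_eq_Ex (A : Finset ι) (g : (ι → ℤˣ) → ℝ) (x : ι → ℤˣ) :
    proj A g x = Ex (fun z => g (A.piecewise z x)) := by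
  have h1 : ∀ z : ι → ℤˣ, g (A.piecewise z x) = ∑ S : Finset ι,
      (fc g S * ∏ i ∈ S \ A, sg x i) * ∏ i ∈ S ∩ A, sg z i := by
    intro z
    conv_lhs => rw [← ml_fc g (A.piecewise z x)]
    unfold ml
    refine Finset.sum_congr rfl fun S _ => ?_
    rw [mul_assoc]
    congr 1
    rw [← Finset.prod_inter_mul_prod_sdiff S A, mul_comm]
    congr 1
    · refine Finset.prod_congr rfl fun i hi => ?_
      unfold sg
      rw [Finset.piecewise_eq_of_notMem _ _ _ (Finset.mem_sdiff.1 hi).2]
    · refine Finset.prod_congr rfl fun i hi => ?_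
      unfold sg
      rw [Finset.piecewise_eq_of_mem _ _ _ (Finset.mem_inter.1 hi).2]
  rw [Ex_congr h1, Ex_sum, proj_eq]
  unfold ml
  refine Finset.sum_congr rfl fun S _ => ?_
  rw [Ex_mul_left]
  have h2 : Ex (fun z : ι → ℤˣ => ∏ i ∈ S ∩ A, sg z i) = if S ∩ A = ∅ then 1 else 0 := by
    have := Ex_chi_mul (S ∩ A) (∅ : Finset ι)
    simpa using this
  rw [h2]
  beta_reduce
  by_cases h : Disjoint S A
  · have h3 : S ∩ A = ∅ := Finset.disjoint_iff_inter_eq_empty.1 h
    rw [if_pos h3, if_pos h, mul_one, Finset.sdiff_eq_self_of_disjoint h]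
  · have h3 : ¬ S ∩ A = ∅ := fun e => h (Finset.disjoint_iff_inter_eq_empty.2 e)
    rw [if_neg h3, if_neg h, mul_zero, zero_mul]

lemma nrm_add_le (f g : (ι → ℤˣ) → ℝ) : nrm (fun x => f x + g x) ≤ nrm f + nrm g := by
  have h := nrm_sum_le (Finset.univ : Finset Bool) (fun b => if b then f else g)
  simpa using h

/-- Martingale decomposition of a function with twins. -/
lemma decomp (g : (ι → ℤˣ) → ℝ) (L : Finset ι) (blk : ι → κ) (d : ℕ) (hg : ∀ x, |g x| ≤ 1)
    (hd : ∀ S : Finset ι, d < S.card → fc g S = 0)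
    (htw : ∀ a ∈ L, ∀ b ∈ L, blk a = blk b → ∀ x : ι → ℤˣ, g (fun i => x (Equiv.swap a b i)) = g x)
    (a : ℕ) (ha1 : 1 ≤ a) (had : d ≤ a) (hbs : ∀ i ∈ L, a ≤ bs L blk i) (Z : Finset ι)
    (hZ : ∀ l ∉ L, l ∉ Z → ∀ x, D g l x = 0) :
    ∃ (c : ℝ) (q : ι → (ι → ℤˣ) → ℝ), (∀ l x u, q l (Function.update x l u) = q l x) ∧
      (∀ x, g x = c + ∑ l, sg x l * q l x) ∧ 
      ∑ l, nrm (q l) ≤ 9 * d * Real.exp (600 * d ^ 2 / a) + Z.card := by
  classical
  set A : Finset ι := univ \ L with hA
  have hAm : ∀ i, i ∈ A ↔ i ∉ L := fun i => by simp [hA]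
  obtain ⟨q1, h11, h12, h13⟩ := Pool.Agent.TH275.AL.mart g A
  obtain ⟨q2, h21, h22, h23⟩ := Pool.Agent.TH275.AL.mart (proj A g) Finset.univ
  refine ⟨Ex (proj A g), fun l x => q2 l x + (if l ∈ A then q1 l x else 0), ?_, ?_, ?_⟩
  · intro l x u
    by_cases h : l ∈ A <;> simp [h21, h11, h]
  · intro x
    rw [h12 x, ← proj_eq_Ex, h22 x]
    simp only [Finset.piecewise_univ]
    have : ∑ l, sg x l * (q2 l x + (if l ∈ A then q1 l x else 0))
        = ∑ l, sg x l * q2 l x + ∑ l ∈ A, sg x l * q1 l x := by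
      simp only [mul_add, Finset.sum_add_distrib, mul_ite, mul_zero]
      rw [Finset.sum_ite_mem, Finset.univ_inter]
    rw [this, add_assoc]
  · have h3 : ∑ l, nrm (fun x => q2 l x + (if l ∈ A then q1 l x else 0))
        ≤ ∑ l, nrm (q2 l) + ∑ l ∈ A, nrm (q1 l) := by
      have e1 : ∀ l, nrm (fun x => q2 l x + (if l ∈ A then q1 l x else 0))
          ≤ nrm (q2 l) + (if l ∈ A then nrm (q1 l) else 0) := by
        intro l
        by_cases hl : l ∈ A
        · simp only [if_pos hl]
          exact nrm_add_le _ _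
        · simp only [if_neg hl, add_zero]
          exact le_rfl
      refine (Finset.sum_le_sum fun l _ => e1 l).trans (le_of_eq ?_)
      rw [Finset.sum_add_distrib, Finset.sum_ite_mem, Finset.univ_inter]
    refine h3.trans (add_le_add ?_ ?_)
    · -- the main part
      have h4 : ∑ l, nrm (q2 l) ≤ ∑ l, Real.sqrt (∑ S : Finset ι,
          if l ∈ S then fc (proj A g) S ^ 2 else 0) := by
        refine Finset.sum_le_sum fun l _ => (h23 l).trans (le_of_eq ?_)
        have : nrm (D (proj A g) l) = Real.sqrt (Inf (proj A g) l) := rfl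
        rw [this, Inf_eq]
      refine h4.trans ?_
      have h5 := sum_infl_le (c := fc (proj A g)) (L := L) (blk := blk) ?_ d ?_ 1 ?_ ?_ a ha1 had hbs
      · rw [mul_one] at h5; exact h5
      · intro S hS
        rw [fc_proj, if_neg]
        intro hdis
        apply hS
        intro i hi
        by_contra hiL
        exact Finset.disjoint_left.1 hdis hi ((hAm i).2 hiL)
      · exact fc_proj_deg A g d hd
      · intro y hy
        obtain ⟨x, rfl⟩ := exists_sg y hy
        rw [ml_fc]
        exact abs_proj_le A g 1 hg x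
      · intro a' ha b hb hab S
        have ha' : a' ∉ A := fun h => (hAm a').1 h ha
        have hb' : b ∉ A := fun h => (hAm b).1 h hb
        apply fc_swap
        intro x
        rw [proj_eq_Ex, proj_eq_Ex]
        refine Ex_congr fun z => ?_
        rw [piecewise_swap ha' hb', htw a' ha b hb hab]
    · -- the exceptional coordinates
      have h6 : ∀ l ∈ A, nrm (q1 l) ≤ if l ∈ Z then 1 else 0 := by
        intro l hl
        refine (h13 l).trans ?_
        by_cases hlZ : l ∈ Z
        · rw [if_pos hlZ]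
          unfold nrm
          rw [Real.sqrt_le_left zero_le_one, one_pow]
          refine Ex_le_const fun x => ?_
          have h7 : |D g l x| ≤ 1 := by
            unfold D
            rw [abs_div, abs_two, div_le_iff₀ two_pos]
            refine (abs_sub _ _).trans ?_
            have := hg (Function.update x l 1)
            have := hg (Function.update x l (-1))
            linarith
          rw [← sq_abs]
          exact pow_le_one₀ (abs_nonneg _) h7
        · rw [if_neg hlZ]
          have h7 : nrm (D g l) = 0 := by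
            unfold nrm
            have : ∀ x, D g l x ^ 2 = 0 := fun x => by rw [hZ l ((hAm l).1 hl) hlZ x]; norm_num
            rw [Ex_congr this, Ex_const, Real.sqrt_zero]
          rw [h7]
      refine (Finset.sum_le_sum h6).trans ?_
      rw [Finset.sum_ite_mem, Finset.sum_const, nsmul_eq_mul, mul_one]
      exact_mod_cast Finset.card_le_card Finset.inter_subset_right

/-- The strong inequality, bilinear form. -/
theorem cov_le (f g : (ι → ℤˣ) → ℝ) (L : Finset ι) (blk : ι → κ) (d : ℕ) (hg : ∀ x, |g x| ≤ 1)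
    (hd : ∀ S : Finset ι, d < S.card → fc g S = 0)
    (htw : ∀ a ∈ L, ∀ b ∈ L, blk a = blk b → ∀ x : ι → ℤˣ, g (fun i => x (Equiv.swap a b i)) = g x)
    (a : ℕ) (ha1 : 1 ≤ a) (had : d ≤ a) (hbs : ∀ i ∈ L, a ≤ bs L blk i) (M : ℝ) (hM : ∀ l, Real.sqrt (Inf f l) ≤ M)
    (hM0 : 0 ≤ M) :
    |Cov g f| ≤ (9 * d * Real.exp (600 * d ^ 2 / a) + (univ \ L).card) * M := by
  obtain ⟨c, q, hq1, hq2, hq3⟩ := decomp g L blk d hg hd htw a ha1 had hbs (univ \ L) (fun l hl hl' =>
    absurd (Finset.mem_sdiff.2 ⟨Finset.mem_univ l, hl⟩) hl')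
  exact (Cov_low g f c q hq1 hq2 M hM).trans (mul_le_mul_of_nonneg_right hq3 hM0)

/-- The strong inequality for mixtures. -/
theorem strong_twins {α : Type*} [Fintype α] [DecidableEq α]
    (dg : ℕ) (f : (ι → ℤˣ) → ℝ)
    (hd : ∀ S : Finset ι, dg < S.card → fc f S = 0) (B : ℝ) (hB : ∀ x, |f x| ≤ B) (k : ℕ)
    (C : α → Finset ι) (hC : ∀ i, (C i).card ≤ k)
    (J Q : α → (ι → ℤˣ) → ℝ) (hJ : ∀ i x y, (∀ j ∈ C i, x j = y j) → J i x = J i y)
    (hQ : ∀ i x, |Q i x| ≤ 1) (d K a : ℕ) (ha1 : 1 ≤ a) (had : d ≤ a)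
    (hQd : ∀ i, ∀ S : Finset ι, d < S.card → fc (Q i) S = 0)
    (L : α → Finset ι) (hK : ∀ i, (univ \ L i).card ≤ K) (blk : α → ι → κ)
    (htw : ∀ i, ∀ a ∈ L i, ∀ b ∈ L i, blk i a = blk i b →
      ∀ x : ι → ℤˣ, Q i (fun j => x (Equiv.swap a b j)) = Q i x)
    (hbs : ∀ i, ∀ j ∈ L i, a + k ≤ bs (L i) (blk i) j)
    (hclose : Ex (fun x => (f x - mix J Q x) ^ 2) ≤ Cov f f / 2)
    (M : ℝ) (hM : ∀ l, Real.sqrt (Inf f l) ≤ M) (hM0 : 0 ≤ M) :
    Cov f f ≤ (12 * k * dg * Real.sqrt ((∑ i, Ex (fun x => |J i x|)) * B)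
      + 4 * (9 * d * Real.exp (600 * d ^ 2 / a) + K) * ∑ i, Ex (fun x => |J i x|)) * M := by
  classical
  have hdec : ∀ (i : α) (z : ι → ℤˣ), ∃ (c : ℝ) (q : ι → (ι → ℤˣ) → ℝ),
      (∀ l x u, q l (Function.update x l u) = q l x) ∧
      (∀ x, Q i ((C i).piecewise z x) = c + ∑ l, sg x l * q l x) ∧
      ∑ l, nrm (q l) ≤ 9 * d * Real.exp (600 * d ^ 2 / a) + K := by
    intro i z
    obtain ⟨c, q, h1, h2, h3⟩ := decomp (fun x => Q i ((C i).piecewise z x)) (L i \ C i) (blk i) d
      (fun x => hQ i _) (fun S hS => fc_overlay (Q i) d (hQd i) (C i) z S hS)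
      (fun a' ha b hb hab x => by
        have ha' := Finset.mem_sdiff.1 ha
        have hb' := Finset.mem_sdiff.1 hb
        rw [piecewise_swap ha'.2 hb'.2, htw i a' ha'.1 b hb'.1 hab])
      a ha1 had
      (fun j hj => by
        have hj' := Finset.mem_sdiff.1 hj
        have h1 := hbs i j hj'.1
        have h2 : bs (L i) (blk i) j ≤ bs (L i \ C i) (blk i) j + (C i).card := by
          unfold bs
          have : (L i).filter (fun x => blk i x = blk i j)
              ⊆ (L i \ C i).filter (fun x => blk i x = blk i j) ∪ C i := by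
            intro x hx
            have hx' := Finset.mem_filter.1 hx
            by_cases hxC : x ∈ C i
            · exact Finset.mem_union_right _ hxC
            · exact Finset.mem_union_left _ (Finset.mem_filter.2
                ⟨Finset.mem_sdiff.2 ⟨hx'.1, hxC⟩, hx'.2⟩)
          exact (Finset.card_le_card this).trans (Finset.card_union_le _ _)
        have h3 := hC i
        omega)
      (univ \ L i) (fun l hl hl' x => by
        have h1 : l ∈ C i := by
          by_contra h
          have h2 : l ∈ L i := by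
            by_contra h3
            exact hl' (Finset.mem_sdiff.2 ⟨Finset.mem_univ l, h3⟩)
          exact hl (Finset.mem_sdiff.2 ⟨h2, h⟩)
        have h2 : ∀ u : ℤˣ, (C i).piecewise z (Function.update x l u) = (C i).piecewise z x := by
          intro u
          funext j
          by_cases hj : j ∈ C i
          · rw [Finset.piecewise_eq_of_mem _ _ _ hj, Finset.piecewise_eq_of_mem _ _ _ hj]
          · rw [Finset.piecewise_eq_of_notMem _ _ _ hj, Finset.piecewise_eq_of_notMem _ _ _ hj,
              Function.update_of_ne]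
            rintro rfl
            exact hj h1
        unfold D
        beta_reduce
        rw [h2, h2, sub_self, zero_div])
    refine ⟨c, q, h1, h2, h3.trans ?_⟩
    have h4 : ((univ \ L i).card : ℝ) ≤ K := by exact_mod_cast hK i
    linarith
  choose c q h1 h2 h3 using hdec
  let q' : ι → (ι → ℤˣ) → ℝ := fun l x => ∑ i, Ex (fun z => J i z * q i z l x)
  have hq' : ∀ l x u, q' l (Function.update x l u) = q' l x := by
    intro l x u
    simp only [q', h1]
  have hR : ∀ x, avg C J Q x = (∑ i, Ex (fun z => J i z * c i z)) + ∑ l, sg x l * q' l x := by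
    intro x
    unfold avg
    have e1 : ∀ i, Ex (fun z => J i z * Q i ((C i).piecewise z x))
        = Ex (fun z => J i z * c i z) + ∑ l, sg x l * Ex (fun z => J i z * q i z l x) := by
      intro i
      have e2 : ∀ z, J i z * Q i ((C i).piecewise z x)
          = J i z * c i z + ∑ l, sg x l * (J i z * q i z l x) := by
        intro z
        rw [h2, mul_add, Finset.mul_sum]
        congr 1
        refine Finset.sum_congr rfl fun l _ => ?_
        ring
      rw [Ex_congr e2, Ex_add, Ex_sum]
      congr 1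
      refine Finset.sum_congr rfl fun l _ => ?_
      rw [Ex_mul_left]
    rw [Finset.sum_congr rfl fun i _ => e1 i, Finset.sum_add_distrib, Finset.sum_comm]
    congr 1
    refine Finset.sum_congr rfl fun l _ => ?_
    simp only [q']
    rw [Finset.mul_sum]
  refine (strong_mix dg f hd B hB k C hC J Q hJ hQ hclose _ q' hq' hR M hM hM0).trans ?_
  refine mul_le_mul_of_nonneg_right ?_ hM0
  have hsum : ∑ l, Real.sqrt (Ex (fun x => q' l x ^ 2)) ≤ (9 * d * Real.exp (600 * d ^ 2 / a) + K) * ∑ i, Ex (fun x => |J i x|) := by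
    have e1 : ∀ l, nrm (q' l) ≤ ∑ i, Ex (fun z => |J i z| * nrm (q i z l)) := by
      intro l
      refine (nrm_sum_le Finset.univ _).trans (Finset.sum_le_sum fun i _ => ?_)
      refine (nrm_Ex_le fun z y => J i z * q i z l y).trans ?_
      refine Ex_mono fun z => ?_
      have e2 : nrm (fun y => J i z * q i z l y) = |J i z| * nrm (q i z l) := by
        rw [← nrm_mul_left _ (abs_nonneg _)]
        unfold nrm
        congr 1
        refine Ex_congr fun y => ?_
        rw [mul_pow, mul_pow, sq_abs]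
      exact e2.le
    calc ∑ l, Real.sqrt (Ex (fun x => q' l x ^ 2))
        ≤ ∑ l, ∑ i, Ex (fun z => |J i z| * nrm (q i z l)) := Finset.sum_le_sum fun l _ => e1 l
      _ = ∑ i, Ex (fun z => |J i z| * ∑ l, nrm (q i z l)) := by
          rw [Finset.sum_comm]
          refine Finset.sum_congr rfl fun i _ => ?_
          rw [← Ex_sum]
          exact Ex_congr fun z => by rw [Finset.mul_sum]
      _ ≤ ∑ i, Ex (fun z => |J i z| * (9 * d * Real.exp (600 * d ^ 2 / a) + K)) := by
          refine Finset.sum_le_sum fun i _ => Ex_mono fun z => ?_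
          exact mul_le_mul_of_nonneg_left (h3 i z) (abs_nonneg _)
      _ = _ := by
          rw [Finset.mul_sum]
          refine Finset.sum_congr rfl fun i _ => ?_
          rw [Ex_mul_right]; ring
  nlinarith

end Pool.Agent.TH788.TW
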