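import Pool.Agent.TH788.TW.Coeff
import Pool.Agent.TH788.TW.Khin

/-!
# The multilinear form of the transversal sets
-/

set_option autoImplicit false
set_option linter.unusedSectionVars false

namespace Pool.Agent.TH788.TW

open Finset Polynomial Pool.Agent.H722R2.AA Pool.Agent.H746R2.AA

variable {ι κ : Type*} [Fintype ι] [DecidableEq ι] [Fintype κ] [DecidableEq κ] {k : ℕ}

/-- The coefficients of the multilinear form: sum of the coefficients of the transversal sets
with given blocks. -/
noncomputable def U (c : Finset ι → ℝ) (L : Finset ι) (blk : ι → κ) (χ : ι → Fin k)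
    (b : Fin k → κ) : ℝ :=
  ∑ i ∈ univ.filter (fun i : Fin k → ι => (∀ l, i l ∈ L ∧ χ (i l) = l) ∧ (fun l => blk (i l)) = b),
    c (univ.image i)

lemma chaos_U (c : Finset ι → ℝ) (L : Finset ι) (blk : ι → κ) (χ : ι → Fin k)
    (ε : Fin k → κ → ℤˣ) :
    chaos (U c L blk χ) ε = ∑ i ∈ univ.filter (fun i : Fin k → ι => ∀ l, i l ∈ L ∧ χ (i l) = l),
      c (univ.image i) * ∏ l, sg (ε l) (blk (i l)) := by
  unfold chaos U
  rw [← Finset.sum_fiberwise (univ.filter (fun i : Fin k → ι => ∀ l, i l ∈ L ∧ χ (i l) = l))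
    (fun i l => blk (i l))]
  refine Finset.sum_congr rfl fun b _ => ?_
  rw [Finset.sum_mul, Finset.filter_filter]
  refine Finset.sum_congr rfl fun i hi => ?_
  have h := (Finset.mem_filter.1 hi).2.2
  rw [← h]

lemma inj_of_chi {χ : ι → Fin k} {i : Fin k → ι} (h : ∀ l, χ (i l) = l) :
    Function.Injective i := by
  intro l l' e
  rw [← h l, ← h l', e]

lemma transversal (c : Finset ι → ℝ) (L : Finset ι) (hL : ∀ S, ¬ S ⊆ L → c S = 0)
    (χ : ι → Fin k) (w : Fin k → ι → ℝ) :
    ∑ S : Finset ι, (if S.card = k ∧ S.image χ = univ then c S * ∏ i ∈ S, w (χ i) i else 0)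
      = ∑ i ∈ univ.filter (fun i : Fin k → ι => ∀ l, i l ∈ L ∧ χ (i l) = l),
        c (univ.image i) * ∏ l, w l (i l) := by
  symm
  apply Finset.sum_of_injOn (fun i : Fin k → ι => univ.image i)
  · intro i hi i' hi' h
    have hi1 := (Finset.mem_filter.1 (Finset.mem_coe.1 hi)).2
    have hi2 := (Finset.mem_filter.1 (Finset.mem_coe.1 hi')).2
    funext l
    have h1 : i l ∈ univ.image i' := by
      have : i l ∈ univ.image i := Finset.mem_image_of_mem _ (Finset.mem_univ l)
      simpa only [h] using this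
    obtain ⟨l', _, hl'⟩ := Finset.mem_image.1 h1
    have h2 : l' = l := by rw [← (hi2 l').2, hl', (hi1 l).2]
    rw [← hl', h2]
  · intro i _
    exact Finset.mem_coe.2 (Finset.mem_univ _)
  · intro S _ hS
    by_cases hSL : S ⊆ L
    swap
    · rw [hL S hSL]; simp
    split_ifs with h
    · exfalso
      apply hS
      have h1 : ∀ l : Fin k, ∃ i ∈ S, χ i = l := by
        intro l
        have : l ∈ S.image χ := by rw [h.2]; exact Finset.mem_univ l
        exact Finset.mem_image.1 this
      choose i hi1 hi2 using h1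
      refine ⟨i, ?_, ?_⟩
      · refine Finset.mem_coe.2 (Finset.mem_filter.2 ⟨Finset.mem_univ _, fun l => ?_⟩)
        exact ⟨hSL (hi1 l), hi2 l⟩
      · apply Finset.eq_of_subset_of_card_le
        · intro x hx
          obtain ⟨l, _, rfl⟩ := Finset.mem_image.1 hx
          exact hi1 l
        · rw [Finset.card_image_of_injective _ (inj_of_chi hi2), Finset.card_univ,
            Fintype.card_fin, h.1]
    · rfl
  · intro i hi
    have hi1 := (Finset.mem_filter.1 hi).2
    have hinj : Function.Injective i := inj_of_chi fun l => (hi1 l).2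
    have h1 : (univ.image i).card = k := by
      rw [Finset.card_image_of_injective _ hinj, Finset.card_univ, Fintype.card_fin]
    have h2 : (univ.image i).image χ = univ := by
      rw [Finset.eq_univ_iff_forall]
      intro l
      exact Finset.mem_image.2 ⟨i l, Finset.mem_image_of_mem _ (Finset.mem_univ l), (hi1 l).2⟩
    rw [if_pos ⟨h1, h2⟩, Finset.prod_image fun a _ b _ h => hinj h]
    congr 1
    refine Finset.prod_congr rfl fun l _ => ?_
    rw [(hi1 l).2]

lemma delta (χ : ι → Fin k) (S : Finset ι) (hS : S.card = k) :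
    Ex (fun θ : Fin k → ℤˣ => (∏ l, sg θ l) * ∏ i ∈ S, sg θ (χ i))
      = if S.image χ = univ then 1 else 0 := by
  split_ifs with h
  · have hinj : Set.InjOn χ S := by
      rw [← Finset.card_image_iff, h, hS, Finset.card_univ, Fintype.card_fin]
    have h1 : ∀ θ : Fin k → ℤˣ, (∏ l, sg θ l) * ∏ i ∈ S, sg θ (χ i) = 1 := by
      intro θ
      rw [← Finset.prod_image (f := fun l => sg θ l) hinj, h, ← Finset.prod_mul_distrib]
      exact Finset.prod_eq_one fun l _ => sg_mul_self θ l
    rw [Ex_congr h1, Ex_const]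
  · obtain ⟨l0, hl0⟩ : ∃ l0, l0 ∉ S.image χ := by
      by_contra hcon
      push Not at hcon
      exact h (Finset.eq_univ_iff_forall.2 hcon)
    have h1 : ∀ θ : Fin k → ℤˣ, (∏ l, sg θ l) * ∏ i ∈ S, sg θ (χ i)
        = sg θ l0 * ((∏ l ∈ univ.erase l0, sg θ l) * ∏ i ∈ S, sg θ (χ i)) := by
      intro θ
      rw [← Finset.mul_prod_erase univ (fun l => sg θ l) (Finset.mem_univ l0)]; ring
    rw [Ex_congr h1]
    apply Ex_sg_zero
    intro θ u
    congr 1
    · refine Finset.prod_congr rfl fun l hl => ?_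
      unfold sg
      rw [Function.update_of_ne (Finset.ne_of_mem_erase hl)]
    · refine Finset.prod_congr rfl fun i hi => ?_
      unfold sg
      rw [Function.update_of_ne]
      rintro rfl
      exact hl0 (Finset.mem_image_of_mem _ hi)

lemma prod_smul_aux (S : Finset ι) (t : ℝ) (v w : ι → ℝ) :
    ∏ i ∈ S, (t * (v i * w i)) = t ^ S.card * ((∏ i ∈ S, v i) * ∏ i ∈ S, w i) := by
  rw [Finset.prod_mul_distrib, Finset.prod_const, Finset.prod_mul_distrib]

/-- The multilinear form is bounded. -/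
theorem chaos_le (c : Finset ι → ℝ) (L : Finset ι) (hL : ∀ S, ¬ S ⊆ L → c S = 0) (d : ℕ)
    (hd : ∀ S, d < S.card → c S = 0) (B : ℝ) (hB : ∀ y, IsSgn y → |ml c y| ≤ B) (blk : ι → κ)
    (hk : 1 ≤ k) (χ : ι → Fin k) (ε : Fin k → κ → ℤˣ) :
    |chaos (U c L blk χ) ε| ≤ (Real.exp 1 * d / k) ^ k * B := by
  let E : Finset ι → ℝ := fun S => ∏ i ∈ S, sg (ε (χ i)) (blk i)
  let δ : Finset ι → ℝ := fun S => Ex (fun θ : Fin k → ℤˣ => (∏ l, sg θ l) * ∏ i ∈ S, sg θ (χ i))
  let p : ℝ[X] := ∑ S : Finset ι, C (c S * E S * δ S) * X ^ S.card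
  have hpd : p.natDegree ≤ d := by
    refine natDegree_sum_le_of_forall_le _ _ fun S _ => ?_
    by_cases hS : d < S.card
    · rw [hd S hS]; simp
    · exact (natDegree_C_mul_X_pow_le _ _).trans (not_lt.1 hS)
  have hev : ∀ t : ℝ, p.eval t = Ex (fun θ : Fin k → ℤˣ => (∏ l, sg θ l) *
      ml c (fun i => t * (sg θ (χ i) * sg (ε (χ i)) (blk i)))) := by
    intro t
    have h1 : ∀ θ : Fin k → ℤˣ, (∏ l, sg θ l) *
        ml c (fun i => t * (sg θ (χ i) * sg (ε (χ i)) (blk i)))
        = ∑ S : Finset ι, (c S * E S * t ^ S.card) * ((∏ l, sg θ l) * ∏ i ∈ S, sg θ (χ i)) := by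
      intro θ
      unfold ml
      rw [Finset.mul_sum]
      refine Finset.sum_congr rfl fun S _ => ?_
      rw [prod_smul_aux]
      simp only [E]
      ring
    rw [Ex_congr h1, Ex_sum]
    simp only [p, eval_finsetSum, eval_mul, eval_C, eval_pow, eval_X]
    refine Finset.sum_congr rfl fun S _ => ?_
    rw [Ex_mul_left]
    simp only [δ]
    ring
  have hb : ∀ t ∈ Set.Icc (-1 : ℝ) 1, |p.eval t| ≤ B := by
    intro t ht
    rw [hev]
    refine (abs_Ex_le _).trans (Ex_le_const fun θ => ?_)
    rw [abs_mul]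
    have h1 : |∏ l, sg θ l| = 1 := by
      rw [Finset.abs_prod]
      refine Finset.prod_eq_one fun l _ => ?_
      rcases sg_cases θ l with h | h <;> rw [h] <;> norm_num
    rw [h1, one_mul]
    apply abs_ml_le c B hB
    intro i
    rw [abs_mul, abs_mul]
    have h2 : |sg θ (χ i)| = 1 := by
      rcases sg_cases θ (χ i) with h | h <;> rw [h] <;> norm_num
    have h3 : |sg (ε (χ i)) (blk i)| = 1 := by
      rcases sg_cases (ε (χ i)) (blk i) with h | h <;> rw [h] <;> norm_num
    rw [h2, h3, mul_one, mul_one]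
    exact abs_le.2 ht
  have hco := coeff_le hpd hb k hk
  have hcoeff : p.coeff k = chaos (U c L blk χ) ε := by
    rw [chaos_U, ← transversal c L hL χ (fun l i => sg (ε l) (blk i))]
    simp only [p, finsetSum_coeff, coeff_C_mul, coeff_X_pow]
    refine Finset.sum_congr rfl fun S _ => ?_
    by_cases hS : S.card = k
    · have h1 : δ S = if S.image χ = univ then 1 else 0 := delta χ S hS
      rw [h1]
      by_cases h2 : S.image χ = univ
      · simp [hS, h2, E]
      · simp [hS, h2]
    · have h3 : ¬ (k = S.card) := fun h => hS h.symm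
      simp [hS, h3]
  rw [hcoeff] at hco
  exact hco

end Pool.Agent.TH788.TW
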